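import Mathlib
import Pool.Agent.H.MP_0d317a_lc.B

set_option autoImplicit false

namespace Pool.Agent.Results.MP_21276c_lc.CHNo

open Set Filter Function Cardinal Pool.Agent.H.MP_77d395_lc Pool.Agent.H.MP_0d317a_lc

/-- nonprincipal, and every map is constant or finite-to-one on a member -/
def PP (U : Ultrafilter ℕ) : Prop := (∀ n, {n} ∉ U) ∧
  ∀ f : ℕ → ℕ, ∃ X ∈ U, (∃ c, ∀ x ∈ X, f x = c) ∨ ∀ c, {x ∈ X | f x = c}.Finite

/-- nonprincipal, and every finite-to-one map is injective on a member -/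
def QP (U : Ultrafilter ℕ) : Prop := (∀ n, {n} ∉ U) ∧
  ∀ f : ℕ → ℕ, (∀ c, {x | f x = c}.Finite) → ∃ X ∈ U, InjOn f X

/-- every map is constant or injective on a member -/
def Sel (U : Ultrafilter ℕ) : Prop := ∀ f : ℕ → ℕ, ∃ X ∈ U, (∃ c, ∀ x ∈ X, f x = c) ∨ InjOn f X

/-- the Fubini limit, moved to the naturals by the pairing bijection -/
noncomputable def Lim (W : Ultrafilter ℕ) (Y : ℕ → Ultrafilter ℕ) : Ultrafilter ℕ :=
  W.bind fun n => (Y n).map (Nat.pair n)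

theorem result (h : (𝔠 : Cardinal.{0}) = ℵ₁) : ∃ (W : Ultrafilter ℕ) (Y : ℕ → Ultrafilter ℕ),
    PP W ∧ (∀ n, PP (Y n)) ∧ QP (Lim W Y) ∧ ¬ Sel (Lim W Y) := by
  have : Nonempty {S : ℕ → Set ℕ // ∀ n, (S n).Infinite} := ⟨⟨_, fun _ => infinite_univ⟩⟩
  have t : ∀ {A B C : Set ℕ}, (B \ A).Finite → (C \ B).Finite → (C \ A).Finite := fun {A B C} h k =>
    (h.union k).subset fun n r => (em (n ∈ B)).imp (⟨·, r.2⟩) (⟨r.1, ·⟩)
  obtain ⟨U, u1, u2⟩ := rec1 (T := {S : ℕ → Set ℕ // ∀ n, (S n).Infinite}) (K := ℕ → ℕ)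
    (by simp [← h]) (fun A B => ∀ n, (B.1 n \ A.1 n).Finite) (by simp) (fun A B C h k n => t (h n) (k n))
    (fun _ f B => (∀ n, (∃ c, ∀ m ∈ B.1 n, f (n.pair m) = c) ∨ InjOn (fun m => f (n.pair m)) (B.1 n)) ∧
      ((∀ c, {x | f x = c}.Finite) → InjOn f {x | x.unpair.2 ∈ B.1 x.unpair.1})) fun S s f => by
      have : ∀ n, ∃ H : Set ℕ, H.Infinite ∧ (∀ i, (H \ (S i).1 n).Finite) ∧ ((∃ c, ∀ m ∈ H,
          f (n.pair m) = c) ∨ InjOn (fun m => f (n.pair m)) H) := fun n => by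
        obtain ⟨R, r1, r2⟩ := pi (S := fun i => (S i).1 n) fun k => (((S k).2 n).sdiff
          ((finite_le_nat k).biUnion fun i l => s i k l n)).mono fun m r => mem_iInter₂.2 fun i l =>
            by_contra fun w => r.2 (mem_biUnion l ⟨r.1, w⟩)
        by_cases k : ∃ c, {m ∈ R | f (n.pair m) = c}.Infinite
        · exact let ⟨c, k⟩ := k; ⟨_, k, fun i => (r2 i).subset fun m r => ⟨r.1.1, r.2⟩,
            .inl ⟨c, fun m r => r.2⟩⟩
        push Not at k
        obtain ⟨H, h1, e⟩ := exists_subset_bijOn R fun m => f (n.pair m)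
        exact ⟨H, fun v => r1 (((e.image_eq ▸ v.image _).biUnion fun c _ => k c).subset fun m r =>
          mem_biUnion ⟨m, r, rfl⟩ ⟨r, rfl⟩), fun i => (r2 i).subset (sdiff_subset_sdiff_left h1),
            .inr e.injOn⟩
      choose H h1 h2 h3 using this
      by_cases k : ∀ c, {x | f x = c}.Finite
      swap
      · exact ⟨⟨H, h1⟩, fun i n => h2 n i, h3, fun r => (k r).elim⟩
      obtain ⟨z, hz⟩ := sq 0 (Q := fun _ => True) (R := fun t K y => y ∈ Nat.pair t.unpair.1 ''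
        H t.unpair.1 ∧ f y ∉ f '' K) fun t K v _ => (((h1 _).image fun _ _ _ _ e =>
          (Nat.pair_eq_pair.1 e).2).exists_notMem_finite ((v.image f).biUnion fun c _ => k c)).imp
            fun y r => ⟨trivial, r.1, fun w => r.2 (mem_biUnion w rfl)⟩
      have i : Injective (f ∘ z) := .of_lt_imp_ne fun a b l e => (hz b).2.2 ⟨_, ⟨a, l, rfl⟩, e⟩
      have w : ∀ n, {m | n.pair m ∈ range z} ⊆ H n := fun n m ⟨t, e⟩ =>
        let ⟨_, r, v⟩ := (hz t).2.1; let ⟨a, b⟩ := Nat.pair_eq_pair.1 (v.trans e); a ▸ b ▸ r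
      refine ⟨⟨fun n => {m | n.pair m ∈ range z}, fun n => .of_image (Nat.pair n)
        (infinite_of_injective_forall_mem (f := fun r => z (n.pair r)) (fun a b e =>
          (Nat.pair_eq_pair.1 (i.of_comp e)).2) fun r => ?_)⟩, fun i n => (h2 n i).subset
            (sdiff_subset_sdiff_left (w n)), fun n => (h3 n).imp (.imp fun c r m v => r m (w n v))
              (·.mono (w n)), fun _ x ⟨a, r⟩ y ⟨b, v⟩ e => ?_⟩
      · obtain ⟨m, -, v⟩ := (hz (n.pair r)).2.1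
        rw [Nat.unpair_pair] at v
        exact ⟨m, ⟨_, v.symm⟩, v⟩
      rw [Nat.pair_unpair] at r v
      subst r v
      exact congrArg z (i e)
  have : ∀ n, ∃ Y : Ultrafilter ℕ, (Y : Filter ℕ) ≤ cofinite ∧ ∀ a, (U a).1 n ∈ Y := fun n => by
    have := iInf_neBot_of_directed (f := fun a => cofinite ⊓ 𝓟 ((U a).1 n)) (Antitone.directed_ge
      fun a b h => le_inf inf_le_left (le_principal_iff.2 (mem_inf_principal.2 (mem_cofinite.2
        ((u1 a b h n).subset fun x hx => by simpa using hx))))) fun a =>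
          ((U a).2 n).cofinite_inf_principal_neBot
    obtain ⟨V, hV⟩ := Ultrafilter.exists_le (⨅ a, cofinite ⊓ 𝓟 ((U a).1 n))
    exact ⟨V, (hV.trans (iInf_le _ (Classical.arbitrary I))).trans inf_le_left, fun a =>
      le_principal_iff.1 ((hV.trans (iInf_le _ a)).trans inf_le_right)⟩
  choose Y y1 y2 using this
  have i : ∀ {n X}, X ∈ Y n → X.Infinite := fun r v =>
    Ultrafilter.compl_mem_iff_notMem.1 (y1 _ v.compl_mem_cofinite) r
  have p : ∀ n, PP (Y n) := fun n => ⟨fun m r => i r (finite_singleton m), fun f =>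
    let ⟨b, r, _⟩ := u2 (Classical.arbitrary I) fun x => f x.unpair.2
    ⟨_, y2 n b, (r n).imp (by simp) fun r c => Subsingleton.finite fun x v y w =>
      r v.1 w.1 (by simp [v.2, w.2])⟩⟩
  have m : ∀ {A}, A ∈ Lim (Y 0) Y ↔ {n | {m | n.pair m ∈ A} ∈ Y n} ∈ Y 0 := mb
  refine ⟨Y 0, Y, p 0, p, ⟨fun n r => ?_, fun f k => ?_⟩, fun s => ?_⟩
  · obtain ⟨a, v⟩ := (Y 0).nonempty_of_mem (m.1 r)
    exact i v (Subsingleton.finite fun x v y w => (Nat.pair_eq_pair.1 (v.trans w.symm)).2)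
  · obtain ⟨b, -, r⟩ := u2 (Classical.arbitrary I) f
    exact ⟨_, m.2 (univ_mem' fun n => by simpa using y2 n b), r k⟩
  obtain ⟨X, r, ⟨c, v⟩ | v⟩ := s (·.unpair.1)
  · exact i (m.1 r) ((finite_singleton c).subset fun n w => let ⟨a, w⟩ := (Y n).nonempty_of_mem w
      by simpa using v _ w)
  obtain ⟨n, w⟩ := (Y 0).nonempty_of_mem (m.1 r)
  exact i w (Subsingleton.finite fun x a y b => (Nat.pair_eq_pair.1 (v a b (by simp))).2)

end Pool.Agent.Results.MP_21276c_lc.CHNo
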